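import Pool.Agent.Y904.LG.Dat
import Pool.Agent.TH773.CM.Fin

/-! From conditions on link graphs to the bound and the stability. -/

set_option autoImplicit false
set_option maxRecDepth 100000
set_option maxHeartbeats 4000000
open Finset
open scoped Classical

namespace Pool.Agent.Y904.LG
open Pool.Agent.H122R2.N6 Pool.Agent.H37R3.Pen Pool.Agent.H37R3.Cop Pool.Agent.H37R3.CopL
open Pool.Agent.TH773 Pool.Agent.TH773.ST Pool.Agent.TH773.CM
open Pool.Agent.TH773.CL (tx tri_img choose3 nat_of_real)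

/-- The number of pairs of a vertex `v` of the 3-graph `H` and an injection `f` from the vertices of
the graph `F` (given as a set of pairs) to the vertices other than `v` such that a pair `p` is an
edge of `F` if and only if `v` and the image of `p` form an edge of `H`. -/
noncomputable def linkCopies {k n : ℕ} (F : Finset (Finset (Fin k))) (H : Finset (Finset (Fin n))) :
    ℕ :=
  ((univ : Finset (Fin n × (Fin k → Fin n))).filter fun q => Function.Injective q.2 ∧
    (∀ i, q.2 i ≠ q.1) ∧ ∀ p : Finset (Fin k), p.card = 2 →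
      (insert q.1 (p.image q.2) ∈ H ↔ p ∈ F)).card

section
variable {n : ℕ} {H : Finset (Finset (Fin n))}

/-- the pairs of the last vertex of the pattern `m` are the edges of `F` -/
def LkM (m : ℕ) (F : Finset (Finset (Fin 5))) : Prop :=
  ∀ i j : Fin 5, i < j → (bt m (tx i.val j.val 5) = 1 ↔ ({i, j} : Finset (Fin 5)) ∈ F)

theorem img_eq (v : Fin n) (f : Fin 5 → Fin n) (i j : Fin 5) :
    insert v (({i, j} : Finset (Fin 5)).image f) = {f i, f j, v} := by
  ext t
  simp only [image_insert, image_singleton, mem_insert, mem_singleton]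
  tauto

theorem cpS_link {m : ℕ} {F : Finset (Finset (Fin 5))} (hm : LkM m F) :
    (cpS (tri H) 6 m).card ≤ linkCopies F H := by
  unfold linkCopies
  refine card_le_card_of_injOn (fun x : Fin 6 → Fin n =>
    (x (Fin.last 5), fun i : Fin 5 => x i.castSucc)) ?_ ?_
  · intro x hx
    obtain ⟨h1, h2⟩ := mem_cpS.mp (mem_coe.mp hx)
    refine mem_coe.mpr (mem_filter.mpr ⟨mem_univ _, ?_, ?_, ?_⟩)
    · intro i j hij
      exact Fin.castSucc_injective 5 (h1 hij)
    · intro i h
      exact absurd (h1 h) (Fin.castSucc_lt_last i).ne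
    · intro p hp
      obtain ⟨a, b, hab, rfl⟩ := Finset.card_eq_two.mp hp
      have key : ∀ i j : Fin 5, i < j → (insert (x (Fin.last 5))
          (({i, j} : Finset (Fin 5)).image fun i : Fin 5 => x i.castSucc) ∈ H ↔
          ({i, j} : Finset (Fin 5)) ∈ F) := by
        intro i j hij
        rw [img_eq, ← hm i j hij]
        have h3 := h2 i.castSucc j.castSucc (Fin.last 5) hij (Fin.castSucc_lt_last j)
        rw [tri_ite] at h3
        change (if ({x i.castSucc, x j.castSucc, x (Fin.last 5)} : Finset (Fin n)) ∈ H then 1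
          else 0) = bt m (tx i.val j.val 5) at h3
        constructor
        · intro h
          rw [if_pos h] at h3
          exact h3.symm
        · intro h
          by_contra h4
          rw [if_neg h4, h] at h3
          exact absurd h3 (by decide)
      rcases lt_or_gt_of_ne hab with h | h
      · exact key a b h
      · rw [Finset.pair_comm a b]
        exact key b a h
  · intro x _ y _ h
    have e1 : x (Fin.last 5) = y (Fin.last 5) := congrArg Prod.fst h
    have e2 : ∀ i : Fin 5, x i.castSucc = y i.castSucc := fun i => congrFun (congrArg Prod.snd h) i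
    funext t
    refine Fin.lastCases ?_ (fun i => ?_) t
    · exact e1
    · exact e2 i

/-- the bound and the stability for few copies of a list -/
theorem conclude' (i : Fin 5) {k : ℕ} {ε : ℝ} (hε : 0 < ε) (hk : 10 ^ 13 ≤ ε * k)
    (hn : 10 ≤ ε * n) (hn6 : 6 ≤ n)
    (h3 : ∀ e ∈ H, e.card = 3) (hK : Turan34.K43Free H)
    (hc : k * Turan34.copies (Turan34.fam i) H ≤ 4 * n ^ 6) :
    (H.card : ℝ) ≤ (5 / 9 + ε) * (n.choose 3 : ℝ) ∧ ∃ g : Fin n → Fin 3,
      ((symmDiff H (Turan34.turan g)).card : ℝ) ≤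
        1161216000 * (5 / 54 * (n : ℝ) ^ 3 - H.card) + ε * (n : ℝ) ^ 3 := by
  obtain ⟨g, hg⟩ := Pool.Agent.TH773.CL.stab_copies i n H h3 hK
  set N := Turan34.copies (Turan34.fam i) H with hN
  set D := (symmDiff H (Turan34.turan g)).card with hD
  have hn0 : (0 : ℝ) < n := by
    have : (6 : ℝ) ≤ n := by exact_mod_cast hn6
    linarith
  have hk0 : (0 : ℝ) < k := by
    by_contra hneg
    have h0 : (k : ℝ) ≤ 0 := not_lt.mp hneg
    have h1 : ε * k ≤ 0 := mul_nonpos_of_nonneg_of_nonpos hε.le h0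
    linarith
  have g1 : (n : ℝ) ^ 3 * D + 1161216000 * ((n : ℝ) ^ 3 * H.card) ≤
      107520000 * (n : ℝ) ^ 6 + 83684966400 * N := by exact_mod_cast hg
  have g2 : (k : ℝ) * N ≤ 4 * (n : ℝ) ^ 6 := by exact_mod_cast hc
  have g3 : 83684966400 * (N : ℝ) ≤ ε / 24 * (n : ℝ) ^ 6 := by
    have a1 : (k : ℝ) * (83684966400 * N) ≤ k * (ε / 24 * (n : ℝ) ^ 6) := by
      have a2 : (83684966400 * 4) * (n : ℝ) ^ 6 ≤ (ε * k) / 24 * (n : ℝ) ^ 6 := by
        apply mul_le_mul_of_nonneg_right _ (by positivity)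
        linarith
      nlinarith
    exact le_of_mul_le_mul_left a1 hk0
  have g4 : (D : ℝ) + 1161216000 * H.card ≤ 107520000 * (n : ℝ) ^ 3 + ε / 24 * (n : ℝ) ^ 3 := by
    have h2 : (0 : ℝ) < (n : ℝ) ^ 3 := by positivity
    refine le_of_mul_le_mul_left ?_ h2
    nlinarith
  have hD0 : (0 : ℝ) ≤ D := by positivity
  have hn3 : (0 : ℝ) ≤ ε * (n : ℝ) ^ 3 := by positivity
  refine ⟨?_, g, by linarith⟩
  obtain ⟨c1, c2⟩ := choose3 hn6
  have g5 : (10 : ℝ) * (n : ℝ) ^ 2 ≤ ε * (n : ℝ) ^ 3 := by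
    have : (10 : ℝ) * (n : ℝ) ^ 2 ≤ (ε * n) * (n : ℝ) ^ 2 :=
      mul_le_mul_of_nonneg_right hn (by positivity)
    linarith [this, show (ε * n) * (n : ℝ) ^ 2 = ε * (n : ℝ) ^ 3 by ring]
  have g6 : ε * (n : ℝ) ^ 3 ≤ ε * (12 * (n.choose 3 : ℝ)) := mul_le_mul_of_nonneg_left c1 hε.le
  nlinarith

theorem copies_sum (i : Fin 5) (H : Finset (Finset (Fin n))) :
    Turan34.copies (Turan34.fam i) H ≤ ((famM i).map fun m => (cpS (tri H) 6 m).card).sum := by
  have key : ∀ (F : Finset (Finset (Fin 6))) (m : ℕ), Mask m F →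
      ((univ : Finset (Finset (Fin n))).filter fun S => Turan34.Induces F H S) ⊆
        (cpS (tri H) 6 m).image fun x => univ.image x := by
    intro F m hm S hS
    obtain ⟨-, f, hf, hS2, h⟩ := mem_filter.mp hS
    refine mem_image.mpr ⟨f, mem_cpS.mpr ⟨hf, ?_⟩, hS2⟩
    intro i j l hij hjl
    rw [← Pool.Agent.TH773.CL.ti_tx i j l hij hjl]
    exact copy_of_ind hm h i j l hij hjl
  have gen : ∀ L : List ℕ, ((univ : Finset (Finset (Fin n))).filter fun S =>
      ∃ F, (∃ m ∈ L, Mask m F) ∧ Turan34.Induces F H S).card ≤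
        (L.map fun m => (cpS (tri H) 6 m).card).sum := by
    intro L
    induction L with
    | nil =>
      rw [List.map_nil, List.sum_nil, Nat.le_zero, card_eq_zero, filter_eq_empty_iff]
      rintro S - ⟨F, ⟨m, hm, -⟩, -⟩
      exact absurd hm List.not_mem_nil
    | cons a L ih =>
      rw [List.map_cons, List.sum_cons]
      refine (card_le_card (t := ((cpS (tri H) 6 a).image fun x => univ.image x) ∪
        (univ : Finset (Finset (Fin n))).filter fun S =>
          ∃ F, (∃ m ∈ L, Mask m F) ∧ Turan34.Induces F H S) ?_).trans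
        ((card_union_le _ _).trans (Nat.add_le_add card_image_le ih))
      intro S hS
      obtain ⟨-, F, ⟨m, hm, hmF⟩, hF⟩ := mem_filter.mp hS
      rcases List.mem_cons.mp hm with rfl | hm
      · exact mem_union_left _ (key F m hmF (mem_filter.mpr ⟨mem_univ _, hF⟩))
      · exact mem_union_right _ (mem_filter.mpr ⟨mem_univ _, F, ⟨m, hm, hmF⟩, hF⟩)
  refine (card_le_card ?_).trans (gen (famM i))
  intro S hS
  obtain ⟨-, F, hF, h⟩ := mem_filter.mp hS
  obtain ⟨m, hm, hmF⟩ := fam_mask i F hF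
  exact mem_filter.mpr ⟨mem_univ _, F, ⟨m, hm, hmF⟩, h⟩

end

theorem negl_all {L0 SQ : List (ℕ × ℕ)} {M : List ℕ} (h : ∀ m ∈ M, Negl L0 SQ (6, m)) (k : ℕ) :
    ∃ K n0 : ℕ, ∀ n, n0 ≤ n → ∀ H : Finset (Finset (Fin n)), (∀ e ∈ H, e.card = 3) →
      Turan34.K43Free H → (∀ a ∈ L0, K * (cpS (tri H) a.1 a.2).card ≤ n ^ a.1) →
      (∀ a ∈ SQ, K * (cqS (tri H) a.1 a.2).card ≤ n ^ a.1) →
      k * (M.map fun m => (cpS (tri H) 6 m).card).sum ≤ M.length * n ^ 6 := by
  induction M with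
  | nil => exact ⟨0, 0, fun n _ H _ _ _ _ => by simp⟩
  | cons m M ih =>
    obtain ⟨K1, n1, h1⟩ := ih fun m' hm' => h m' (List.mem_cons_of_mem _ hm')
    obtain ⟨K2, n2, h2⟩ := h m List.mem_cons_self k
    refine ⟨max K1 K2, max n1 n2, fun n hn H hH hK h5 h6 => ?_⟩
    have hC : Cl L0 SQ (max K1 K2) (tri H) :=
      ⟨tri_sy H, tri_noK4 hH hK, fun f hf => by rw [Fintype.card_fin]; exact h5 f hf,
        fun q hq => by rw [Fintype.card_fin]; exact h6 q hq⟩
    have a1 := h1 n ((le_max_left _ _).trans hn) H hH hK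
      (fun a ha => (Nat.mul_le_mul_right _ (le_max_left _ _)).trans (h5 a ha))
      (fun a ha => (Nat.mul_le_mul_right _ (le_max_left _ _)).trans (h6 a ha))
    have a2 := h2 (Fin n) (tri H) (hC.mono (le_max_right _ _))
      (by rw [Fintype.card_fin]; exact (le_max_right _ _).trans hn)
    rw [Fintype.card_fin] at a2
    change k * (cpS (tri H) 6 m).card ≤ n ^ 6 at a2
    rw [List.map_cons, List.sum_cons, List.length_cons, Nat.mul_add, Nat.add_mul, one_mul]
    omega

/-- the general conclusion -/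
theorem main_fam {L0 SQ : List (ℕ × ℕ)} (i : Fin 5) (h : ∀ m ∈ famM i, Negl L0 SQ (6, m))
    {ε : ℝ} (hε : 0 < ε) : ∃ K n0 : ℕ, ∀ n, n0 ≤ n → ∀ H : Finset (Finset (Fin n)),
      (∀ e ∈ H, e.card = 3) → Turan34.K43Free H →
      (∀ a ∈ L0, K * (cpS (tri H) a.1 a.2).card ≤ n ^ a.1) →
      (∀ a ∈ SQ, K * (cqS (tri H) a.1 a.2).card ≤ n ^ a.1) →
      (H.card : ℝ) ≤ (5 / 9 + ε) * (n.choose 3 : ℝ) ∧ ∃ g : Fin n → Fin 3,
      ((symmDiff H (Turan34.turan g)).card : ℝ) ≤
        1161216000 * (5 / 54 * (n : ℝ) ^ 3 - H.card) + ε * (n : ℝ) ^ 3 := by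
  obtain ⟨k, hk⟩ := exists_nat_ge ((10 : ℝ) ^ 13 / ε)
  obtain ⟨n1, hn1⟩ := exists_nat_ge ((10 : ℝ) / ε)
  obtain ⟨K, n0, h1⟩ := negl_all h k
  refine ⟨K, max n0 (max n1 6), fun n hn H h3 hK h5 h6 => ?_⟩
  have a0 : n0 ≤ n := (le_max_left _ _).trans hn
  have a1 : n1 ≤ n := (le_max_left _ _).trans ((le_max_right _ _).trans hn)
  have a2 : 6 ≤ n := (le_max_right _ _).trans ((le_max_right _ _).trans hn)
  have hlen : (famM i).length ≤ 4 := by fin_cases i <;> decide
  refine conclude' (k := k) i hε ?_ ?_ a2 h3 hK ?_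
  · rw [div_le_iff₀ hε] at hk
    linarith [mul_comm (k : ℝ) ε]
  · rw [div_le_iff₀ hε] at hn1
    have a3 : (n1 : ℝ) ≤ n := by exact_mod_cast a1
    have a4 : (n1 : ℝ) * ε ≤ n * ε := mul_le_mul_of_nonneg_right a3 hε.le
    linarith [mul_comm (n : ℝ) ε]
  · calc k * Turan34.copies (Turan34.fam i) H ≤
        k * ((famM i).map fun m => (cpS (tri H) 6 m).card).sum :=
          Nat.mul_le_mul_left _ (copies_sum i H)
      _ ≤ (famM i).length * n ^ 6 := h1 n a0 H h3 hK h5 h6
      _ ≤ 4 * n ^ 6 := Nat.mul_le_mul_right _ hlen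

/-- Turán's construction: no link graph contains `F`, if a finite check holds -/
theorem turan_link {F : Finset (Finset (Fin 5))}
    (hF : ∀ (v : Fin 3) (f : Fin 5 → Fin 3), ∃ i j : Fin 5, i < j ∧
      ¬ (Rf (f i) (f j) v = 1 ↔ ({i, j} : Finset (Fin 5)) ∈ F)) {n : ℕ} (g : Fin n → Fin 3) :
    linkCopies F (Turan34.turan g) = 0 := by
  unfold linkCopies
  rw [card_eq_zero, filter_eq_empty_iff]
  rintro ⟨v, f⟩ - ⟨h1, h2, h3⟩
  obtain ⟨i, j, hij, h⟩ := hF (g v) fun i => g (f i)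
  refine h ?_
  have hp : ({i, j} : Finset (Fin 5)).card = 2 := Finset.card_pair hij.ne
  rw [← h3 _ hp]
  change _ ↔ insert v (({i, j} : Finset (Fin 5)).image f) ∈ _
  rw [img_eq, mem_turan (fun e => hij.ne (h1 e)) (h2 i) (h2 j)]

end Pool.Agent.Y904.LG
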